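import Pool.Agent.D0H74.WG.Flat

/-!
# The rings `A` such that `A[[x]]` has weak global dimension one

For a ring `A` the weak global dimension of `A[[x]]` is one if and only if `A` is a non-zero
von Neumann regular ring such that for every `n` and all sequences `(a_i)`, `(b_j)` of `n × n`
matrices over `A` with `b_j a_i = 0` for all `i` and `j` there is an `n × n` matrix `h` over `A`
with `h a_i = a_i` and `b_j h = 0` for all `i` and `j`.
-/

set_option autoImplicit false

namespace Pool.Agent.Results.MP_d6aa4f_al.RegularSeparated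

open MulOpposite PowerSeries Pool.Agent.D0H74.WG

universe u

/-- The right `R`-module `M` (a module over the opposite ring, `op r • x` being `x r`) is flat:
whenever `∑ x_i r_i = 0` there are `y_j` in `M` and `a_ji` in `R` with `x_i = ∑_j y_j a_ji` for
all `i` and `∑_i a_ji r_i = 0` for all `j` (the equational criterion for flatness). -/
def IsFlat (R : Type u) [Ring R] (M : Type u) [AddCommGroup M] [Module Rᵐᵒᵖ M] : Prop :=
  ∀ (n : ℕ) (x : Fin n → M) (r : Fin n → R), ∑ i, op (r i) • x i = 0 →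
    ∃ (k : ℕ) (y : Fin k → M) (a : Fin k → Fin n → R),
      (∀ i, x i = ∑ j, op (a j i) • y j) ∧ ∀ j, ∑ i, a j i * r i = 0

/-- The right `R`-module `M` has a flat resolution of length `n`: for `n = 0` it is flat, and for
`n + 1` it is the image of a flat module under a map whose kernel has a flat resolution of
length `n`. -/
def HasFlatResolution (R : Type u) [Ring R] :
    ℕ → (M : Type u) → [AddCommGroup M] → [Module Rᵐᵒᵖ M] → Prop
  | 0, M, _, _ => IsFlat R M
  | n + 1, M, _, _ => ∃ (F : Type u) (_ : AddCommGroup F) (_ : Module Rᵐᵒᵖ F) (π : F →ₗ[Rᵐᵒᵖ] M),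
      IsFlat R F ∧ Function.Surjective π ∧ HasFlatResolution R n (LinearMap.ker π)

/-- The flat dimension of a right `R`-module: the least length of a flat resolution, `∞` if there
is none. -/
noncomputable def flatDim (R : Type u) [Ring R] (M : Type u) [AddCommGroup M] [Module Rᵐᵒᵖ M] :
    ℕ∞ :=
  ⨅ (n : ℕ) (_ : HasFlatResolution R n M), (n : ℕ∞)

/-- The weak global dimension of `R`: the supremum of the flat dimensions of the right
`R`-modules. -/
noncomputable def weakGlobalDim (R : Type u) [Ring R] : ℕ∞ :=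
  ⨆ M : ModuleCat.{u} Rᵐᵒᵖ, flatDim R M

section lemmas

variable {R : Type u} [Ring R] {M : Type u} [AddCommGroup M] [Module Rᵐᵒᵖ M]

theorem isFlat_iff : IsFlat R M ↔ FlatL Rᵐᵒᵖ M := by
  constructor
  · intro h n r x hx
    obtain ⟨k, y, a, h1, h2⟩ := h n x (fun i => unop (r i)) (by simpa using hx)
    refine ⟨k, Matrix.of fun i j => op (a j i), y, fun i => by simpa using h1 i, fun j => ?_⟩
    apply unop_injective
    simpa using h2 j
  · intro h n x r hx
    obtain ⟨k, a, y, h1, h2⟩ := h n (fun i => op (r i)) x hx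
    refine ⟨k, y, fun j i => unop (a i j), fun i => by simpa using h1 i, fun j => ?_⟩
    apply op_injective
    simpa using h2 j

theorem flatDim_le_one : flatDim R M ≤ 1 ↔ HasFlatResolution R 0 M ∨ HasFlatResolution R 1 M := by
  constructor
  · intro h
    by_contra hcon
    push Not at hcon
    have : (2 : ℕ∞) ≤ flatDim R M := by
      refine le_iInf fun n => le_iInf fun hn => ?_
      have h0 : n ≠ 0 := fun h => hcon.1 (h ▸ hn)
      have h1 : n ≠ 1 := fun h => hcon.2 (h ▸ hn)
      exact_mod_cast (show 2 ≤ n by omega)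
    exact absurd (this.trans h) (by decide)
  · rintro (h | h)
    · exact (iInf₂_le 0 h).trans (by simp)
    · exact (iInf₂_le 1 h).trans (by simp)

theorem flatDim_le_zero : flatDim R M ≤ 0 ↔ HasFlatResolution R 0 M := by
  constructor
  · intro h
    by_contra hcon
    have : (1 : ℕ∞) ≤ flatDim R M := by
      refine le_iInf fun n => le_iInf fun hn => ?_
      have h0 : n ≠ 0 := fun h => hcon (h ▸ hn)
      exact_mod_cast (show 1 ≤ n by omega)
    exact absurd (this.trans h) (by decide)
  · intro h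
    exact (iInf₂_le 0 h).trans (by simp)

theorem fd1_of_flat (h : IsFlat R M) : FD1 Rᵐᵒᵖ M := by
  refine ⟨M, inferInstance, inferInstance, LinearMap.id, isFlat_iff.1 h, fun x => ⟨x, rfl⟩, ?_⟩
  have : Subsingleton (LinearMap.ker (LinearMap.id : M →ₗ[Rᵐᵒᵖ] M)) := by
    rw [LinearMap.ker_id]
    infer_instance
  exact FlatL.of_subsingleton

theorem resolution_one : HasFlatResolution R 1 M ↔ FD1 Rᵐᵒᵖ M := by
  constructor
  · rintro ⟨F, i1, i2, π, h1, h2, h3⟩
    exact ⟨F, i1, i2, π, isFlat_iff.1 h1, h2, isFlat_iff.1 h3⟩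
  · rintro ⟨F, i1, i2, π, h1, h2, h3⟩
    exact ⟨F, i1, i2, π, isFlat_iff.2 h1, h2, isFlat_iff.2 h3⟩

end lemmas

theorem weakGlobalDim_le_one (R : Type u) [Ring R] : weakGlobalDim R ≤ 1 ↔ PFM R := by
  constructor
  · intro h
    have h1 : ∀ (M : Type u) [AddCommGroup M] [Module Rᵐᵒᵖ M], FD1 Rᵐᵒᵖ M := by
      intro M _ _
      have h2 : flatDim R (ModuleCat.of Rᵐᵒᵖ M) ≤ 1 := (le_iSup (fun M : ModuleCat.{u} Rᵐᵒᵖ =>
        flatDim R M) (ModuleCat.of Rᵐᵒᵖ M)).trans h
      rcases flatDim_le_one.1 h2 with h3 | h3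
      · exact fd1_of_flat h3
      · exact resolution_one.1 h3
    have h2 : PFM Rᵐᵒᵖ := pfm_of_flat h1
    -- back to `R`
    intro n F G hFG
    let t : Matrix (Fin n) (Fin n) R → Matrix (Fin n) (Fin n) Rᵐᵒᵖ :=
      fun M => Matrix.of fun i j => op (M j i)
    let s : Matrix (Fin n) (Fin n) Rᵐᵒᵖ → Matrix (Fin n) (Fin n) R :=
      fun M => Matrix.of fun i j => unop (M j i)
    have ts : ∀ M, t (s M) = M := fun M => by ext i j; simp [t, s]
    have st : ∀ M, s (t M) = M := fun M => by ext i j; simp [t, s]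
    have tm : ∀ M N, t (M * N) = t N * t M := by
      intro M N
      ext i j
      simp [t, Matrix.mul_apply]
    have t0 : t 0 = 0 := by ext i j; simp [t]
    have inj : Function.Injective t := fun x y hxy => by rw [← st x, ← st y, hxy]
    obtain ⟨H, e1, e2⟩ := h2 n (t G) (t F) (by rw [← tm, hFG, t0])
    have t1 : t 1 = 1 := by
      ext i j
      simp only [t, Matrix.of_apply, Matrix.one_apply]
      by_cases h : i = j
      · subst h; simp
      · have h' : ¬ j = i := fun h2 => h h2.symm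
        simp [h, h']
    have tsub : ∀ M N, t (M - N) = t M - t N := by intro M N; ext i j; simp [t]
    refine ⟨1 - s H, inj ?_, inj ?_⟩
    · rw [tm, tsub, t1, ts, sub_mul, one_mul, e2, sub_self, t0]
    · rw [tm, tsub, t1, ts, mul_sub, mul_one, e1, sub_zero]
  · intro h
    refine iSup_le fun M => flatDim_le_one.2 (Or.inr (resolution_one.2 ?_))
    exact fd1_of_pfm h.op M

/-- the module `A[[x]] / x A[[x]]` is not flat -/
theorem not_le_zero (A : Type u) [Ring A] [Nontrivial A] : ¬ weakGlobalDim A⟦X⟧ ≤ 0 := by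
  intro h
  let I : Submodule (A⟦X⟧)ᵐᵒᵖ (A⟦X⟧)ᵐᵒᵖ := Submodule.span _ {op (X : A⟦X⟧)}
  have h2 : flatDim A⟦X⟧ (ModuleCat.of (A⟦X⟧)ᵐᵒᵖ ((A⟦X⟧)ᵐᵒᵖ ⧸ I)) ≤ 0 :=
    (le_iSup (fun M : ModuleCat.{u} (A⟦X⟧)ᵐᵒᵖ => flatDim A⟦X⟧ M) _).trans h
  have h3 : FlatL (A⟦X⟧)ᵐᵒᵖ ((A⟦X⟧)ᵐᵒᵖ ⧸ I) := isFlat_iff.1 (flatDim_le_zero.1 h2)
  obtain ⟨k, a, y, hy, ha⟩ := h3 1 (fun _ => op X) (fun _ => Submodule.Quotient.mk 1) (by
    simp only [Finset.univ_unique, Finset.sum_singleton]
    rw [← Submodule.Quotient.mk_smul, Submodule.Quotient.mk_eq_zero, smul_eq_mul, mul_one]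
    exact Submodule.mem_span_singleton_self _)
  have ha0 : ∀ j, a 0 j = 0 := by
    intro j
    have := ha j
    simp only [Finset.univ_unique, Finset.sum_singleton] at this
    have h4 := congrArg unop this
    rw [unop_mul, unop_op, unop_zero, ← X_mul] at h4
    exact unop_injective (X_mul_cancel h4)
  have h5 := hy 0
  simp only [ha0, zero_smul, Finset.sum_const_zero] at h5
  rw [Submodule.Quotient.mk_eq_zero, Submodule.mem_span_singleton] at h5
  obtain ⟨b, hb⟩ := h5
  have h6 := congrArg (fun z => constantCoeff (unop z)) hb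
  simp at h6

/-- **The rings `A` with `w.gl.dim A[[x]] = 1`** are exactly the non-zero von Neumann regular rings
such that any two sequences `(a_i)`, `(b_j)` in a matrix ring over `A` with `b_j a_i = 0` for all
`i`, `j` are separated by some `h` with `h a_i = a_i` and `b_j h = 0` for all `i`, `j`. -/
theorem result (A : Type u) [Ring A] :
    weakGlobalDim A⟦X⟧ = 1 ↔
      Nontrivial A ∧ (∀ a : A, ∃ b : A, a * b * a = a) ∧
        ∀ (n : ℕ) (a b : ℕ → Matrix (Fin n) (Fin n) A), (∀ i j, b j * a i = 0) →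
          ∃ h : Matrix (Fin n) (Fin n) A, (∀ i, h * a i = a i) ∧ ∀ j, b j * h = 0 := by
  have hle := (weakGlobalDim_le_one A⟦X⟧).trans (pfm_iff (A := A))
  constructor
  · intro h
    obtain ⟨h1, h2⟩ := hle.1 h.le
    refine ⟨?_, h1, fun n => h2 n⟩
    by_contra hA
    rw [not_nontrivial_iff_subsingleton] at hA
    have : weakGlobalDim A⟦X⟧ ≤ 0 := by
      refine iSup_le fun M => flatDim_le_zero.2 (isFlat_iff.2 ?_)
      have hM : Subsingleton M := by
        have : Subsingleton (A⟦X⟧)ᵐᵒᵖ := by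
          have : Subsingleton A⟦X⟧ := ⟨fun f g => by ext n; exact Subsingleton.elim _ _⟩
          exact unop_injective.subsingleton
        exact Module.subsingleton (A⟦X⟧)ᵐᵒᵖ M
      exact FlatL.of_subsingleton
    rw [h] at this
    exact absurd this (by decide)
  · rintro ⟨hA, h1, h2⟩
    refine le_antisymm (hle.2 ⟨h1, fun n => h2 n⟩) ?_
    exact Order.one_le_iff_pos.2 (lt_of_not_ge (not_le_zero A))

end Pool.Agent.Results.MP_d6aa4f_al.RegularSeparated
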